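import Pool.Agent.R497.NC.Two

set_option autoImplicit false

namespace Pool.Agent.R497.NC

open MeasureTheory Filter Finset

theorem chu1 {α : Type} (m₁ m₀ : MeasurableSpace α) (μ : @Measure α m₀) [IsProbabilityMeasure μ]
    (A : Set α) (u : α → ℝ) (hm : m₁ ≤ m₀) (hA : MeasurableSet[m₀] A) (hu : ∀ x, 0 ≤ u x ∧ u x ≤ 1)
    (hc : u =ᵐ[μ] μ[(A.indicator 1 : α → ℝ) | m₁]) (d : ℝ) (hd : 0 < d) :
    ∃ v : α → ℝ, Measurable[m₀] v ∧ (∀ x, 0 ≤ v x ∧ v x ≤ 1) ∧ v =ᵐ[μ] u ∧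
      ∫ x, A.indicator 1 x * (v x + d)⁻¹ ∂μ ≤ 1 := by
  set f : α → ℝ := A.indicator 1 with hf
  have hfm : Measurable[m₀] f := measurable_one.indicator hA
  have hf01 : ∀ x, 0 ≤ f x ∧ f x ≤ 1 := by
    intro x
    by_cases hx : x ∈ A <;> simp [hf, hx]
  have hfi : Integrable f μ := intg μ hfm 1 (fun x => abs_le.2 ⟨by linarith [(hf01 x).1], (hf01 x).2⟩)
  set E : α → ℝ := μ[f | m₁] with hE
  have hEm : StronglyMeasurable[m₁] E := stronglyMeasurable_condExp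
  let v : α → ℝ := fun x => max 0 (min 1 (E x))
  have hvm1 : Measurable[m₁] v := measurable_const.max (measurable_const.min hEm.measurable)
  have hv01 : ∀ x, 0 ≤ v x ∧ v x ≤ 1 := fun x =>
    ⟨le_max_left _ _, max_le zero_le_one (min_le_left _ _)⟩
  have hvu : v =ᵐ[μ] u := by
    filter_upwards [hc] with x hx
    have := hu x
    rw [hx] at this
    show max 0 (min 1 (E x)) = u x
    rw [hx, min_eq_right this.2, max_eq_right this.1]
  have hvE : v =ᵐ[μ] E := hvu.trans hc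
  refine ⟨v, hvm1.mono hm le_rfl, hv01, hvu, ?_⟩
  let k : α → ℝ := fun x => (v x + d)⁻¹
  have hkm : Measurable[m₁] k := (hvm1.add_const d).inv
  have hkb : ∀ x, ‖k x‖ ≤ d⁻¹ := by
    intro x
    have h1 : 0 < v x + d := by linarith [(hv01 x).1]
    rw [Real.norm_eq_abs, abs_of_pos (inv_pos.2 h1)]
    exact inv_anti₀ hd (by linarith [(hv01 x).1])
  have e1 : μ[k * f | m₁] =ᵐ[μ] k * μ[f | m₁] :=
    condExp_stronglyMeasurable_mul_of_bound hm hkm.stronglyMeasurable hfi d⁻¹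
      (Filter.Eventually.of_forall hkb)
  calc ∫ x, f x * (v x + d)⁻¹ ∂μ = ∫ x, (k * f) x ∂μ := by
        refine integral_congr_ae (Filter.Eventually.of_forall fun x => ?_)
        show f x * (v x + d)⁻¹ = (v x + d)⁻¹ * f x
        ring
    _ = ∫ x, (μ[k * f | m₁]) x ∂μ := (integral_condExp hm).symm
    _ = ∫ x, (v x + d)⁻¹ * v x ∂μ := by
        refine integral_congr_ae ?_
        filter_upwards [e1, hvE] with x h1 h2
        rw [h1, Pi.mul_apply]
        show (v x + d)⁻¹ * E x = _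
        rw [← h2]
    _ ≤ ∫ x, (1 : ℝ) ∂μ := by
        have hb : ∀ x, (v x + d)⁻¹ * v x ≤ 1 := by
          intro x
          have h1 : 0 < v x + d := by linarith [(hv01 x).1]
          rw [inv_mul_le_iff₀ h1]
          linarith
        have hb0 : ∀ x, 0 ≤ (v x + d)⁻¹ * v x := fun x =>
          mul_nonneg (inv_nonneg.2 (by linarith [(hv01 x).1])) (hv01 x).1
        refine integral_mono_of_nonneg (Filter.Eventually.of_forall hb0) (integrable_const _)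
          (Filter.Eventually.of_forall hb)
    _ = 1 := by simp

theorem amgm {a u v : ℝ} (ha : 0 < a) (hu : 0 < u) (hv : 0 < v) :
    3 ≤ u * v / a ^ 2 + a * u⁻¹ + a * v⁻¹ := by
  have h : u * v / a ^ 2 + a * u⁻¹ + a * v⁻¹ - 3 =
      (u ^ 2 * v ^ 2 + a ^ 3 * v + a ^ 3 * u - 3 * a ^ 2 * u * v) / (a ^ 2 * u * v) := by
    field_simp
  have h2 : 0 ≤ u ^ 2 * v ^ 2 + a ^ 3 * v + a ^ 3 * u - 3 * a ^ 2 * u * v := by
    -- with s = sqrt (u v): u + v ≥ 2 s
    set s := Real.sqrt (u * v) with hs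
    have hs0 : 0 ≤ s := Real.sqrt_nonneg _
    have hs2 : s ^ 2 = u * v := Real.sq_sqrt (by positivity)
    have hsum : 2 * s ≤ u + v := by
      nlinarith [sq_nonneg (u - v), sq_nonneg (u + v - 2 * s), hs2, hs0, mul_pos hu hv,
        abs_le_of_sq_le_sq (a := 2 * s) (b := u + v) (by nlinarith [sq_nonneg (u - v)]) (by linarith)]
    have e : u ^ 2 * v ^ 2 = s ^ 4 := by
      have : s ^ 4 = (s ^ 2) ^ 2 := by ring
      rw [this, hs2]; ring
    have e2 : 3 * a ^ 2 * u * v = 3 * a ^ 2 * s ^ 2 := by rw [hs2]; ring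
    rw [e, e2]
    have e3 : 0 ≤ s ^ 4 + 2 * a ^ 3 * s - 3 * a ^ 2 * s ^ 2 := by
      have : s ^ 4 + 2 * a ^ 3 * s - 3 * a ^ 2 * s ^ 2 = s * ((s - a) ^ 2 * (s + 2 * a)) := by ring
      rw [this]; positivity
    nlinarith [mul_nonneg (pow_pos ha 3).le (sub_nonneg.2 hsum)]
  have h3 : 0 ≤ (u ^ 2 * v ^ 2 + a ^ 3 * v + a ^ 3 * u - 3 * a ^ 2 * u * v) / (a ^ 2 * u * v) :=
    div_nonneg h2 (by positivity)
  linarith

theorem tCHU : S_CHU := by
  intro α m₁ m₂ m₀ μ _ A u₁ u₂ hm₁ hm₂ hA hu₁ hu₂ hc₁ hc₂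
  set f : α → ℝ := A.indicator 1 with hf
  have hfm : Measurable[m₀] f := measurable_one.indicator hA
  have hf01 : ∀ x, 0 ≤ f x ∧ f x ≤ 1 := by
    intro x
    by_cases hx : x ∈ A <;> simp [hf, hx]
  have hf1 : ∀ x, |f x| ≤ 1 := fun x => abs_le.2 ⟨by linarith [(hf01 x).1], (hf01 x).2⟩
  have hfi : Integrable f μ := intg μ hfm 1 hf1
  set a : ℝ := μ.real A with ha
  have hfa : ∫ x, f x ∂μ = a := integral_indicator_one hA
  have ha0 : 0 ≤ a := measureReal_nonneg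
  have hI0 : 0 ≤ ∫ x, f x * u₁ x * u₂ x ∂μ :=
    integral_nonneg fun x => mul_nonneg (mul_nonneg (hf01 x).1 (hu₁ x).1) (hu₂ x).1
  rcases ha0.eq_or_lt with h0 | hapos
  · rw [← h0]; simpa using hI0
  set I : ℝ := ∫ x, f x * u₁ x * u₂ x ∂μ with hI
  -- for every d
  have key : ∀ d : ℝ, 0 < d → d ≤ 1 → 3 * a ≤ (I + 3 * d) / a ^ 2 + 2 * a := by
    intro d hd hd1
    obtain ⟨v₁, hv₁m, hv₁, hvu₁, hi₁⟩ := chu1 m₁ m₀ μ A u₁ hm₁ hA hu₁ hc₁ d hd
    obtain ⟨v₂, hv₂m, hv₂, hvu₂, hi₂⟩ := chu1 m₂ m₀ μ A u₂ hm₂ hA hu₂ hc₂ d hd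
    have hb : ∀ (v : α → ℝ), (∀ x, 0 ≤ v x ∧ v x ≤ 1) → Measurable[m₀] v →
        Integrable (fun x => f x * (v x + d)⁻¹) μ := by
      intro v hv hvm
      refine intg μ (hfm.mul (hvm.add_const d).inv) (1 * d⁻¹) fun x => ?_
      rw [abs_mul]
      refine mul_le_mul (hf1 x) ?_ (abs_nonneg _) zero_le_one
      have h1 : 0 < v x + d := by linarith [(hv x).1]
      rw [abs_of_pos (inv_pos.2 h1)]
      exact inv_anti₀ hd (by linarith [(hv x).1])
    have hb1 := hb v₁ hv₁ hv₁m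
    have hb2 := hb v₂ hv₂ hv₂m
    have hp : Integrable (fun x => f x * v₁ x * v₂ x) μ := by
      refine intg μ ((hfm.mul hv₁m).mul hv₂m) 1 fun x => ?_
      rw [abs_mul, abs_mul]
      have h1 : |v₁ x| ≤ 1 := abs_le.2 ⟨by linarith [(hv₁ x).1], (hv₁ x).2⟩
      have h2 : |v₂ x| ≤ 1 := abs_le.2 ⟨by linarith [(hv₂ x).1], (hv₂ x).2⟩
      have := mul_le_mul (mul_le_mul (hf1 x) h1 (abs_nonneg _) zero_le_one) h2 (abs_nonneg _) (by norm_num)
      linarith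
    have hIv : ∫ x, f x * v₁ x * v₂ x ∂μ = I := by
      refine integral_congr_ae ?_
      filter_upwards [hvu₁, hvu₂] with x h1 h2
      rw [h1, h2]
    have hpt : ∀ x, 3 * f x ≤ (f x * v₁ x * v₂ x + 3 * d) * (a ^ 2)⁻¹ + a * (f x * (v₁ x + d)⁻¹)
        + a * (f x * (v₂ x + d)⁻¹) := by
      intro x
      have p1 : 0 < v₁ x + d := by linarith [(hv₁ x).1]
      have p2 : 0 < v₂ x + d := by linarith [(hv₂ x).1]
      have h1 := amgm hapos p1 p2
      by_cases hx : x ∈ A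
      · have hfx : f x = 1 := by simp [hf, hx]
        rw [hfx]
        have h2 : (v₁ x + d) * (v₂ x + d) / a ^ 2 ≤ (v₁ x * v₂ x + 3 * d) * (a ^ 2)⁻¹ := by
          rw [div_eq_mul_inv]
          refine mul_le_mul_of_nonneg_right ?_ (by positivity)
          nlinarith [(hv₁ x).1, (hv₁ x).2, (hv₂ x).1, (hv₂ x).2]
        simp only [one_mul, mul_one]
        linarith
      · have hfx : f x = 0 := by simp [hf, hx]
        rw [hfx]
        have : 0 ≤ 3 * d * (a ^ 2)⁻¹ := by positivity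
        simp only [zero_mul, mul_zero, zero_add, add_zero]
        exact this
    have i1 : Integrable (fun x => (f x * v₁ x * v₂ x + 3 * d) * (a ^ 2)⁻¹) μ :=
      (hp.add (integrable_const _)).mul_const _
    have i2 : Integrable (fun x => (f x * v₁ x * v₂ x + 3 * d) * (a ^ 2)⁻¹ + a * (f x * (v₁ x + d)⁻¹)) μ :=
      i1.add (hb1.const_mul a)
    have h5 := integral_mono (hfi.const_mul 3) (i2.add (hb2.const_mul a)) hpt
    have h6 : ∫ x, ((f x * v₁ x * v₂ x + 3 * d) * (a ^ 2)⁻¹ + a * (f x * (v₁ x + d)⁻¹)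
        + a * (f x * (v₂ x + d)⁻¹)) ∂μ = (I + 3 * d) * (a ^ 2)⁻¹ + a * ∫ x, f x * (v₁ x + d)⁻¹ ∂μ
        + a * ∫ x, f x * (v₂ x + d)⁻¹ ∂μ := by
      rw [integral_add i2 (hb2.const_mul a), integral_add i1 (hb1.const_mul a), integral_const_mul,
        integral_const_mul, integral_mul_const, integral_add hp (integrable_const _), hIv]
      simp
    have h7 : ∫ x, 3 * f x ∂μ = 3 * a := by rw [integral_const_mul, hfa]
    have h8 : 3 * a ≤ (I + 3 * d) * (a ^ 2)⁻¹ + a * ∫ x, f x * (v₁ x + d)⁻¹ ∂μ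
        + a * ∫ x, f x * (v₂ x + d)⁻¹ ∂μ := by
      rw [← h6, ← h7]; exact h5
    have h9 : a * ∫ x, f x * (v₁ x + d)⁻¹ ∂μ ≤ a * 1 := mul_le_mul_of_nonneg_left hi₁ ha0
    have h10 : a * ∫ x, f x * (v₂ x + d)⁻¹ ∂μ ≤ a * 1 := mul_le_mul_of_nonneg_left hi₂ ha0
    rw [div_eq_mul_inv]
    linarith
  have hfin : ∀ d : ℝ, 0 < d → a ^ 3 ≤ I + d := by
    intro d hd
    have h1 := key (min 1 (d / 3)) (by positivity) (min_le_left _ _)
    have h2 : a * a ^ 2 ≤ I + 3 * min 1 (d / 3) := by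
      have h3 : a ≤ (I + 3 * min 1 (d / 3)) / a ^ 2 := by linarith
      rwa [le_div_iff₀ (by positivity)] at h3
    have h4 : min 1 (d / 3) ≤ d / 3 := min_le_right _ _
    have h5 : a ^ 3 = a * a ^ 2 := by ring
    rw [h5]; linarith
  exact le_of_forall_pos_le_add hfin

end Pool.Agent.R497.NC
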