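import Mathlib

/-!
Project NC (helper497), MP_9d6b4a_an: two ARBITRARY measure preserving transformations (no commutation),
`mu (A ∩ T₁^{-(m+p₁(n))} A ∩ T₂^{-(m+p₂(n))} A) > mu(A)^3 - eps`. Statements of the steps; proofs in NOTES.md.
-/

set_option autoImplicit false

namespace Pool.Agent.R497.NC

open MeasureTheory Filter Finset
open scoped InnerProductSpace

/-- an invertible measure preserving transformation -/
structure Sys {α : Type} [MeasurableSpace α] (μ : Measure α) (T : Equiv.Perm α) : Prop where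
  m : Measurable T
  ms : Measurable T.symm
  mp : MeasurePreserving T μ μ

/-- `h` is orthogonal to all functions which are invariant under some power `T ^ r`, `r ≥ 1` -/
def Orth {α : Type} [MeasurableSpace α] (μ : Measure α) (T : Equiv.Perm α) (h : α → ℝ) : Prop :=
  ∀ r : ℕ, 0 < r → ∀ g : α → ℝ, Measurable g → (∃ C : ℝ, ∀ x, |g x| ≤ C) →
    (∀ x, g ((T ^ r) x) = g x) → ∫ x, h x * g x ∂μ = 0

/-- (VDC) van der Corput's lemma -/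
def S_VDC : Prop := ∀ (H : Type) [NormedAddCommGroup H] [InnerProductSpace ℝ H] (v : ℕ → H) (C : ℝ),
  (∀ n, ‖v n‖ ≤ C) →
  (∀ k : ℕ, 0 < k → Tendsto (fun N : ℕ => (N : ℝ)⁻¹ * ∑ n ∈ range N, ⟪v n, v (n + k)⟫_ℝ) atTop (nhds 0)) →
  Tendsto (fun N : ℕ => (N : ℝ)⁻¹ • ∑ n ∈ range N, v n) atTop (nhds 0)

/-- (PME) the mean ergodic theorem along polynomials -/
def S_PME : Prop := ∀ (H : Type) [NormedAddCommGroup H] [InnerProductSpace ℝ H] (U : H ≃ₗᵢ[ℝ] H) (v : H),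
  (∀ r : ℕ, 0 < r → Tendsto (fun N : ℕ => (N : ℝ)⁻¹ • ∑ n ∈ range N, (U ^ (r * n)) v) atTop (nhds 0)) →
  ∀ Q : Polynomial ℤ, 0 < Q.natDegree →
    Tendsto (fun N : ℕ => (N : ℝ)⁻¹ • ∑ n ∈ range N, (U ^ (Q.eval (n : ℤ))) v) atTop (nhds 0)

/-- (MET) mean convergence for functions orthogonal to the rational Kronecker factor -/
def S_MET : Prop := ∀ (α : Type) [MeasurableSpace α] (μ : Measure α) [IsProbabilityMeasure μ] (T : Equiv.Perm α)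
  (h : α → ℝ), Sys μ T → Measurable h → (∃ C : ℝ, ∀ x, |h x| ≤ C) → Orth μ T h →
  ∀ Q : Polynomial ℤ, 0 < Q.natDegree →
    Tendsto (fun N : ℕ => ∫ x, |(N : ℝ)⁻¹ * ∑ n ∈ range N, h ((T ^ (Q.eval (n : ℤ))) x)| ∂μ) atTop (nhds 0)

/-- (DEC) decomposition of an indicator function -/
def S_DEC : Prop := ∀ (α : Type) [MeasurableSpace α] (μ : Measure α) [IsProbabilityMeasure μ] (T : Equiv.Perm α)
  (A : Set α), Sys μ T → MeasurableSet A → ∀ ε : ℝ, 0 < ε → ∃ r₀ : ℕ, 0 < r₀ ∧ ∀ r : ℕ, 0 < r → r₀ ∣ r →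
    ∃ u h : α → ℝ, Measurable u ∧ Measurable h ∧ (∀ x, 0 ≤ u x ∧ u x ≤ 1) ∧ (∀ x, |h x| ≤ 2) ∧ Orth μ T h ∧
      (∀ x, u ((T ^ r) x) = u x) ∧ ∫ x, |A.indicator 1 x - u x - h x| ∂μ ≤ ε ∧
      u =ᵐ[μ] μ[(A.indicator 1 : α → ℝ) | MeasurableSpace.invariants ⇑(T ^ r)]

/-- (CHU) two conditional expectations of a set -/
def S_CHU : Prop := ∀ (α : Type) (m₁ m₂ m₀ : MeasurableSpace α) (μ : @Measure α m₀) [IsProbabilityMeasure μ]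
  (A : Set α) (u₁ u₂ : α → ℝ), m₁ ≤ m₀ → m₂ ≤ m₀ → MeasurableSet[m₀] A →
  (∀ x, 0 ≤ u₁ x ∧ u₁ x ≤ 1) → (∀ x, 0 ≤ u₂ x ∧ u₂ x ≤ 1) →
  u₁ =ᵐ[μ] μ[(A.indicator 1 : α → ℝ) | m₁] → u₂ =ᵐ[μ] μ[(A.indicator 1 : α → ℝ) | m₂] →
  μ.real A ^ 3 ≤ ∫ x, A.indicator 1 x * u₁ x * u₂ x ∂μ

/-- (TWO) two transformations -/
def S_TWO : Prop := ∀ (α : Type) [MeasurableSpace α] (μ : Measure α) [IsProbabilityMeasure μ]
  (T₁ T₂ : Equiv.Perm α) (A : Set α) (p₁ p₂ : Polynomial ℤ), Sys μ T₁ → Sys μ T₂ → MeasurableSet A →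
  p₁.coeff 0 = 0 → p₂.coeff 0 = 0 → p₁ ≠ p₂ → ∀ (ε : ℝ) (s : ℕ), 0 < ε → 0 < s →
  ∃ m n : ℕ, 0 < m ∧ 0 < n ∧ s ∣ m ∧ s ∣ n ∧
    μ.real A ^ 3 - ε < μ.real (A ∩ (⇑(T₁ ^ ((m : ℤ) + p₁.eval (n : ℤ))) ⁻¹' A ∩
      ⇑(T₂ ^ ((m : ℤ) + p₂.eval (n : ℤ))) ⁻¹' A))

/-! The tasks:
* NC-VDC : `theorem tVDC : S_VDC`
* NC-PME : `theorem tPME (h : S_VDC) : S_PME`
* NC-MET : `theorem tMET (h : S_PME) : S_MET`
* NC-DEC : `theorem tDEC : S_DEC`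
* NC-CHU : `theorem tCHU : S_CHU`
* NC-TWO : `theorem tTWO (h1 : S_MET) (h2 : S_DEC) (h3 : S_CHU) : S_TWO`
-/

end Pool.Agent.R497.NC
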