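import Pool.Agent.R497.NC.Two

set_option autoImplicit false

namespace Pool.Agent.R497.NC

open MeasureTheory Filter Finset

theorem tFIN (h2 : S_TWO) : ∀ (α : Type) [MeasurableSpace α] (μ : Measure α) [IsProbabilityMeasure μ]
    (ℓ : ℕ) (T : Fin ℓ → Equiv.Perm α) (p : Fin ℓ → Polynomial ℤ),
    (∀ i, Measurable (T i)) → (∀ i, Measurable (T i).symm) → (∀ i, MeasurePreserving (T i) μ μ) →
    (∀ i, (p i).coeff 0 = 0) → ∀ A : Set α, MeasurableSet A → ∀ i₁ i₂ : Fin ℓ, p i₁ ≠ p i₂ →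
    (∀ i, i ≠ i₁ → i ≠ i₂ → ∀ δ : ℝ, 0 < δ → ∃ r : ℕ, 0 < r ∧ ∃ B : Set α, MeasurableSet B ∧
      ⇑(T i ^ r) ⁻¹' B = B ∧ μ.real (symmDiff A B) ≤ δ) →
    ∀ ε : ℝ, 0 < ε → ∀ K : ℕ, ∃ m n : ℕ, K < m ∧ K < n ∧
      μ.real A ^ 3 - ε < μ.real (A ∩ ⋂ i, ⇑(T i ^ ((m : ℤ) + (p i).eval (n : ℤ))) ⁻¹' A) := by
  intro α _ μ _ ℓ T p hm hms hmp hp A hA i₁ i₂ hne hper ε hε K
  have hS : ∀ i, Sys μ (T i) := fun i => ⟨hm i, hms i, hmp i⟩
  set δ : ℝ := ε / (2 * (ℓ + 1)) with hδ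
  have hδ0 : 0 < δ := by positivity
  have hex : ∀ i, ∃ r : ℕ, 0 < r ∧ (i ≠ i₁ → i ≠ i₂ → ∃ B : Set α, MeasurableSet B ∧
      ⇑(T i ^ r) ⁻¹' B = B ∧ μ.real (symmDiff A B) ≤ δ) := by
    intro i
    by_cases h1 : i = i₁
    · exact ⟨1, one_pos, fun h => absurd h1 h⟩
    by_cases h3 : i = i₂
    · exact ⟨1, one_pos, fun _ h => absurd h3 h⟩
    obtain ⟨r, hr, hB⟩ := hper i h1 h3 δ hδ0
    exact ⟨r, hr, fun _ _ => hB⟩
  choose r hr hB using hex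
  obtain ⟨m, n, hm0, hn0, hsm, hsn, hlt⟩ := h2 α μ (T i₁) (T i₂) A (p i₁) (p i₂) (hS i₁) (hS i₂) hA (hp i₁)
    (hp i₂) hne (ε / 2) ((K + 1) * ∏ i, r i) (by positivity)
    (Nat.mul_pos (Nat.succ_pos K) (Finset.prod_pos fun i _ => hr i))
  have hKm : K + 1 ∣ m := (Dvd.intro _ rfl).trans hsm
  have hKn : K + 1 ∣ n := (Dvd.intro _ rfl).trans hsn
  have hrm : ∀ i, r i ∣ m := fun i => (Finset.dvd_prod_of_mem r (Finset.mem_univ i)).trans
    ((Dvd.intro_left _ rfl).trans hsm)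
  have hrn : ∀ i, r i ∣ n := fun i => (Finset.dvd_prod_of_mem r (Finset.mem_univ i)).trans
    ((Dvd.intro_left _ rfl).trans hsn)
  refine ⟨m, n, Nat.lt_of_succ_le (Nat.le_of_dvd hm0 hKm), Nat.lt_of_succ_le (Nat.le_of_dvd hn0 hKn), ?_⟩
  set k : Fin ℓ → ℤ := fun i => (m : ℤ) + (p i).eval (n : ℤ) with hk
  have hrk : ∀ i, (r i : ℤ) ∣ k i := by
    intro i
    refine dvd_add (by exact_mod_cast hrm i) ?_
    have h5 : ((n : ℤ)) ∣ (p i).eval (n : ℤ) := by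
      conv_rhs => rw [← Polynomial.divX_mul_X_add (p i)]
      rw [hp i]
      simp
    exact (show (r i : ℤ) ∣ (n : ℤ) by exact_mod_cast hrn i).trans h5
  let E : Fin ℓ → Set α := fun i => if i = i₁ ∨ i = i₂ then ∅ else A \ (⇑(T i ^ k i) ⁻¹' A)
  have hE : ∀ i, μ.real (E i) ≤ δ := by
    intro i
    by_cases hi : i = i₁ ∨ i = i₂
    · simp [E, hi, hδ0.le]
    · simp only [E, hi, if_false]
      push Not at hi
      obtain ⟨B, hBm, hBi, hBd⟩ := hB i hi.1 hi.2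
      have hBk : ⇑(T i ^ k i) ⁻¹' B = B := by
        obtain ⟨j, hj⟩ := hrk i
        have h7 := inv_z (T := T i) (u := B.indicator 1) (r := r i) (fun x => by
          have : (T i ^ r i) x ∈ B ↔ x ∈ B := by
            conv_rhs => rw [← hBi]
            rfl
          by_cases hx : x ∈ B
          · rw [Set.indicator_of_mem hx, Set.indicator_of_mem (this.2 hx)]; rfl
          · rw [Set.indicator_of_notMem hx, Set.indicator_of_notMem (fun h => hx (this.1 h))]) j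
        rw [← hj] at h7
        ext x
        have h8 := h7 x
        constructor
        · intro hx
          by_contra hx'
          rw [Set.indicator_of_mem (show (T i ^ k i) x ∈ B from hx), Set.indicator_of_notMem hx'] at h8
          simp at h8
        · intro hx
          by_contra hx'
          rw [Set.indicator_of_notMem (show (T i ^ k i) x ∉ B from hx'), Set.indicator_of_mem hx] at h8
          simp at h8
      have hsub : A \ (⇑(T i ^ k i) ⁻¹' A) ⊆ (A \ B) ∪ ⇑(T i ^ k i) ⁻¹' (B \ A) := by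
        intro x hx
        by_cases hxB : x ∈ B
        · right
          refine ⟨?_, hx.2⟩
          rw [← hBk] at hxB
          exact hxB
        · left
          exact ⟨hx.1, hxB⟩
      have h9 : μ.real (⇑(T i ^ k i) ⁻¹' (B \ A)) = μ.real (B \ A) :=
        (mpz (hS i) (k i)).measureReal_preimage (hBm.diff hA).nullMeasurableSet
      calc μ.real (A \ (⇑(T i ^ k i) ⁻¹' A)) ≤ μ.real ((A \ B) ∪ ⇑(T i ^ k i) ⁻¹' (B \ A)) :=
            measureReal_mono hsub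
        _ ≤ μ.real (A \ B) + μ.real (⇑(T i ^ k i) ⁻¹' (B \ A)) := measureReal_union_le _ _
        _ = μ.real (A \ B) + μ.real (B \ A) := by rw [h9]
        _ = μ.real (symmDiff A B) := by
            rw [Set.symmDiff_def, measureReal_union (Set.disjoint_left.2 fun x hx hx' => hx.2 hx'.1)
              (hBm.diff hA)]
        _ ≤ δ := hBd
  have hsub : A ∩ (⇑(T i₁ ^ k i₁) ⁻¹' A ∩ ⇑(T i₂ ^ k i₂) ⁻¹' A) ⊆
      (A ∩ ⋂ i, ⇑(T i ^ k i) ⁻¹' A) ∪ ⋃ i ∈ (Finset.univ : Finset (Fin ℓ)), E i := by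
    intro x hx
    by_cases hall : ∀ i, (T i ^ k i) x ∈ A
    · left
      exact ⟨hx.1, Set.mem_iInter.2 hall⟩
    · right
      push Not at hall
      obtain ⟨i, hi⟩ := hall
      have h1 : i ≠ i₁ := fun h => hi (h ▸ hx.2.1)
      have h3 : i ≠ i₂ := fun h => hi (h ▸ hx.2.2)
      simp only [Set.mem_iUnion]
      refine ⟨i, Finset.mem_univ i, ?_⟩
      have : ¬ (i = i₁ ∨ i = i₂) := by push Not; exact ⟨h1, h3⟩
      simp only [E, this, if_false]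
      exact ⟨hx.1, hi⟩
  have h10 : μ.real (A ∩ (⇑(T i₁ ^ k i₁) ⁻¹' A ∩ ⇑(T i₂ ^ k i₂) ⁻¹' A)) ≤
      μ.real (A ∩ ⋂ i, ⇑(T i ^ k i) ⁻¹' A) + ℓ * δ := by
    calc _ ≤ μ.real ((A ∩ ⋂ i, ⇑(T i ^ k i) ⁻¹' A) ∪ ⋃ i ∈ (Finset.univ : Finset (Fin ℓ)), E i) :=
          measureReal_mono hsub
      _ ≤ μ.real (A ∩ ⋂ i, ⇑(T i ^ k i) ⁻¹' A) + μ.real (⋃ i ∈ (Finset.univ : Finset (Fin ℓ)), E i) :=
          measureReal_union_le _ _
      _ ≤ μ.real (A ∩ ⋂ i, ⇑(T i ^ k i) ⁻¹' A) + ∑ i : Fin ℓ, μ.real (E i) :=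
          add_le_add_right (measureReal_biUnion_finset_le _ _) _
      _ ≤ μ.real (A ∩ ⋂ i, ⇑(T i ^ k i) ⁻¹' A) + ∑ i : Fin ℓ, δ :=
          add_le_add_right (Finset.sum_le_sum fun i _ => hE i) _
      _ = _ := by simp
  have h11 : (ℓ : ℝ) * δ ≤ ε / 2 := by
    rw [hδ]
    rw [mul_div_assoc', div_le_div_iff₀ (by positivity) (by norm_num)]
    nlinarith
  have h12 : μ.real A ^ 3 - ε / 2 < μ.real (A ∩ (⇑(T i₁ ^ k i₁) ⁻¹' A ∩ ⇑(T i₂ ^ k i₂) ⁻¹' A)) := hlt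
  linarith

end Pool.Agent.R497.NC
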