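import Pool.Agent.R497.NC.Defs

set_option autoImplicit false

namespace Pool.Agent.R497.NC

open MeasureTheory Filter Finset
open scoped InnerProductSpace

theorem mpz {α : Type} [MeasurableSpace α] {μ : Measure α} {T : Equiv.Perm α} (h : Sys μ T) (k : ℤ) :
    MeasurePreserving ⇑(T ^ k) μ μ := by
  have hn : ∀ n : ℕ, MeasurePreserving ⇑(T ^ n) μ μ := by
    intro n
    have := h.mp.iterate n
    rwa [Equiv.Perm.iterate_eq_pow] at this
  have hs : MeasurePreserving ⇑(T⁻¹ : Equiv.Perm α) μ μ := by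
    let e : α ≃ᵐ α := ⟨T, h.m, h.ms⟩
    have h1 : MeasurePreserving (⇑e) μ μ := h.mp
    exact h1.symm e
  have hn' : ∀ n : ℕ, MeasurePreserving ⇑((T⁻¹ : Equiv.Perm α) ^ n) μ μ := by
    intro n
    have := hs.iterate n
    rwa [Equiv.Perm.iterate_eq_pow] at this
  obtain ⟨n, rfl | rfl⟩ := k.eq_nat_or_neg
  · simpa using hn n
  · have h1 := hn' n
    have h2 : (T⁻¹ : Equiv.Perm α) ^ n = T ^ (-(n : ℤ)) := by
      rw [zpow_neg, zpow_natCast, inv_pow]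
    rwa [h2] at h1

theorem inv_z {α : Type} {T : Equiv.Perm α} {u : α → ℝ} {r : ℕ} (hu : ∀ x, u ((T ^ r) x) = u x) (j : ℤ) :
    ∀ x, u ((T ^ ((r : ℤ) * j)) x) = u x := by
  have h1 : ∀ n : ℕ, ∀ x, u (((T ^ r) ^ n) x) = u x := by
    intro n
    induction n with
    | zero => intro x; simp
    | succ n ih => intro x; rw [pow_succ, Equiv.Perm.mul_apply, ih, hu]
  intro x
  obtain ⟨n, rfl | rfl⟩ := j.eq_nat_or_neg
  · have : T ^ ((r : ℤ) * (n : ℤ)) = (T ^ r) ^ n := by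
      rw [zpow_mul, zpow_natCast, zpow_natCast]
    rw [this, h1]
  · have : T ^ ((r : ℤ) * (-(n : ℤ))) = ((T ^ r) ^ n)⁻¹ := by
      rw [zpow_mul, zpow_neg, zpow_natCast, zpow_natCast]
    rw [this]
    have h2 := h1 n ((((T ^ r) ^ n)⁻¹ : Equiv.Perm α) x)
    have h3 : ((T ^ r) ^ n) ((((T ^ r) ^ n)⁻¹ : Equiv.Perm α) x) = x := Equiv.apply_symm_apply _ _
    rw [h3] at h2
    exact h2.symm

theorem shift (Ψ : ℤ → ℝ) (B : ℝ) (hB : ∀ j, |Ψ j| ≤ B) (M : ℕ) (c : ℤ) :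
    |∑ m ∈ range M, Ψ (m + c) - ∑ m ∈ range M, Ψ m| ≤ 2 * B * |(c : ℝ)| := by
  have h1 : ∀ c : ℤ, |∑ m ∈ range M, Ψ (m + (c + 1)) - ∑ m ∈ range M, Ψ (m + c)| ≤ 2 * B := by
    intro c
    rw [← Finset.sum_sub_distrib]
    have : ∑ m ∈ range M, (Ψ (m + (c + 1)) - Ψ (m + c)) = Ψ (M + c) - Ψ c := by
      have h := Finset.sum_range_sub (fun m : ℕ => Ψ ((m : ℤ) + c)) M
      simp only [Nat.cast_zero, zero_add] at h
      rw [← h]
      refine Finset.sum_congr rfl fun m _ => ?_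
      push_cast
      ring_nf
    rw [this]
    calc |Ψ (M + c) - Ψ c| ≤ |Ψ (M + c)| + |Ψ c| := abs_sub _ _
      _ ≤ 2 * B := by linarith [hB (M + c), hB c]
  have h2 : ∀ n : ℕ, |∑ m ∈ range M, Ψ (m + (n : ℤ)) - ∑ m ∈ range M, Ψ m| ≤ 2 * B * n := by
    intro n
    induction n with
    | zero => simp
    | succ n ih =>
      have h3 := h1 n
      have h4 : ∑ m ∈ range M, Ψ (m + ((n + 1 : ℕ) : ℤ)) - ∑ m ∈ range M, Ψ m
          = (∑ m ∈ range M, Ψ (m + ((n : ℤ) + 1)) - ∑ m ∈ range M, Ψ (m + (n : ℤ))) +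
            (∑ m ∈ range M, Ψ (m + (n : ℤ)) - ∑ m ∈ range M, Ψ m) := by push_cast; ring
      rw [h4]
      refine (abs_add_le _ _).trans ?_
      push_cast
      linarith
  have h3 : ∀ n : ℕ, |∑ m ∈ range M, Ψ (m + (-(n : ℤ))) - ∑ m ∈ range M, Ψ m| ≤ 2 * B * n := by
    intro n
    induction n with
    | zero => simp
    | succ n ih =>
      have h3 := h1 (-((n + 1 : ℕ) : ℤ))
      have h5 : (-((n + 1 : ℕ) : ℤ)) + 1 = -(n : ℤ) := by push_cast; ring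
      rw [h5] at h3
      have h4 : ∑ m ∈ range M, Ψ (m + (-((n + 1 : ℕ) : ℤ))) - ∑ m ∈ range M, Ψ m
          = -(∑ m ∈ range M, Ψ (m + (-(n : ℤ))) - ∑ m ∈ range M, Ψ (m + (-((n + 1 : ℕ) : ℤ)))) +
            (∑ m ∈ range M, Ψ (m + (-(n : ℤ))) - ∑ m ∈ range M, Ψ m) := by ring
      rw [h4]
      refine (abs_add_le _ _).trans ?_
      rw [abs_neg]
      push_cast at h3 ⊢
      linarith
  obtain ⟨n, rfl | rfl⟩ := c.eq_nat_or_neg
  · have := h2 n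
    simpa [abs_of_nonneg] using this
  · have := h3 n
    simpa [abs_of_nonneg] using this

theorem intg {α : Type} [MeasurableSpace α] (μ : Measure α) [IsProbabilityMeasure μ] {F : α → ℝ}
    (hm : Measurable F) (C : ℝ) (hC : ∀ x, |F x| ≤ C) : Integrable F μ :=
  Integrable.of_bound hm.aestronglyMeasurable C (Filter.Eventually.of_forall fun x => by
    rw [Real.norm_eq_abs]; exact hC x)

/-- a weighted average is at most the `L1` norm -/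
theorem wbd {α : Type} [MeasurableSpace α] (μ : Measure α) [IsProbabilityMeasure μ] (T : Equiv.Perm α)
    (hT : Sys μ T) (h w : α → ℝ) (C : ℝ) (hh : Measurable h) (hC : ∀ x, |h x| ≤ C) (hw : Measurable w)
    (hw1 : ∀ x, |w x| ≤ 1) (N : ℕ) (hN : 0 < N) (k : ℕ → ℤ) (c : ℤ) :
    |∑ n ∈ range N, ∫ x, w x * h ((T ^ (c + k n)) x) ∂μ| ≤
      N * ∫ x, |(N : ℝ)⁻¹ * ∑ n ∈ range N, h ((T ^ (k n)) x)| ∂μ := by
  have hC0 : 0 ≤ C := by
    obtain ⟨x⟩ := μ.nonempty_of_neZero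
    exact (abs_nonneg _).trans (hC x)
  have hmk : ∀ j : ℤ, Measurable fun x => h ((T ^ j) x) := fun j => hh.comp (mpz hT j).measurable
  have hint : ∀ n, Integrable (fun x => w x * h ((T ^ (c + k n)) x)) μ := fun n =>
    intg μ (hw.mul (hmk _)) (1 * C) (fun x => by
      rw [abs_mul]; exact mul_le_mul (hw1 x) (hC _) (abs_nonneg _) zero_le_one)
  rw [← integral_finsetSum _ (fun n _ => hint n)]
  have hms : ∀ c : ℤ, Measurable fun x => ∑ n ∈ range N, h ((T ^ (c + k n)) x) := fun c =>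
    Finset.measurable_sum _ fun n _ => hmk _
  have hbs : ∀ c : ℤ, ∀ x, |∑ n ∈ range N, h ((T ^ (c + k n)) x)| ≤ N * C := by
    intro c x
    calc |∑ n ∈ range N, h ((T ^ (c + k n)) x)| ≤ ∑ n ∈ range N, |h ((T ^ (c + k n)) x)| :=
          Finset.abs_sum_le_sum_abs _ _
      _ ≤ ∑ n ∈ range N, C := Finset.sum_le_sum fun n _ => hC _
      _ = N * C := by simp
  calc |∫ x, ∑ n ∈ range N, w x * h ((T ^ (c + k n)) x) ∂μ|
      ≤ ∫ x, |∑ n ∈ range N, w x * h ((T ^ (c + k n)) x)| ∂μ := abs_integral_le_integral_abs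
    _ ≤ ∫ x, |∑ n ∈ range N, h ((T ^ (c + k n)) x)| ∂μ := by
        refine integral_mono_of_nonneg (Filter.Eventually.of_forall fun x => abs_nonneg _) ?_
          (Filter.Eventually.of_forall fun x => ?_)
        · exact (intg μ (hms c) (N * C) (hbs c)).abs
        · simp only
          rw [← Finset.mul_sum, abs_mul]
          calc |w x| * |∑ n ∈ range N, h ((T ^ (c + k n)) x)|
              ≤ 1 * |∑ n ∈ range N, h ((T ^ (c + k n)) x)| :=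
                mul_le_mul_of_nonneg_right (hw1 x) (abs_nonneg _)
            _ = _ := one_mul _
    _ = ∫ x, |∑ n ∈ range N, h ((T ^ (k n)) ((T ^ c) x))| ∂μ := by
        refine integral_congr_ae (Filter.Eventually.of_forall fun x => ?_)
        simp only
        congr 1
        refine Finset.sum_congr rfl fun n _ => ?_
        rw [add_comm, zpow_add, Equiv.Perm.mul_apply]
    _ = ∫ x, |∑ n ∈ range N, h ((T ^ (k n)) x)| ∂μ := by
        have h1 := (mpz hT c)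
        have h2 : Measurable fun x => |∑ n ∈ range N, h ((T ^ (k n)) x)| := by
          have := (hms 0)
          simp only [zero_add] at this
          exact this.abs
        rw [← integral_map (f := fun x => |∑ n ∈ range N, h ((T ^ (k n)) x)|) h1.measurable.aemeasurable
          (by rw [h1.map_eq]; exact h2.aestronglyMeasurable), h1.map_eq]
    _ = N * ∫ x, |(N : ℝ)⁻¹ * ∑ n ∈ range N, h ((T ^ (k n)) x)| ∂μ := by
        rw [← integral_const_mul]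
        refine integral_congr_ae (Filter.Eventually.of_forall fun x => ?_)
        simp only
        have hN' : (0 : ℝ) < N := by exact_mod_cast hN
        rw [abs_mul, abs_of_pos (inv_pos.2 hN'), ← mul_assoc, mul_inv_cancel₀ hN'.ne', one_mul]

theorem poly_dvd (p : Polynomial ℤ) (hp : p.coeff 0 = 0) (r : ℕ) : ∃ d : ℕ → ℤ, ∀ n : ℕ,
    p.eval ((r : ℤ) * ((n : ℤ) + 1)) = r * d n := by
  refine ⟨fun n => ((n : ℤ) + 1) * p.divX.eval ((r : ℤ) * ((n : ℤ) + 1)), fun n => ?_⟩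
  conv_lhs => rw [← Polynomial.divX_mul_X_add p]
  rw [hp]
  simp
  ring

theorem tTWO (h1 : S_MET) (h2 : S_DEC) (h3 : S_CHU) : S_TWO := by
  intro α _ μ _ T₁ T₂ A p₁ p₂ hT₁ hT₂ hA hp₁ hp₂ hne ε s hε hs
  set f : α → ℝ := A.indicator 1 with hf
  have hfm : Measurable f := measurable_one.indicator hA
  have hf01 : ∀ x, 0 ≤ f x ∧ f x ≤ 1 := by
    intro x
    by_cases hx : x ∈ A <;> simp [hf, hx]
  have hf1 : ∀ x, |f x| ≤ 1 := fun x => abs_le.2 ⟨by linarith [(hf01 x).1], (hf01 x).2⟩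
  obtain ⟨r₁, hr₁, H₁⟩ := h2 α μ T₁ A hT₁ hA (ε / 6) (by positivity)
  obtain ⟨r₂, hr₂, H₂⟩ := h2 α μ T₂ A hT₂ hA (ε / 6) (by positivity)
  set r : ℕ := s * r₁ * r₂ with hr
  have hr0 : 0 < r := by positivity
  obtain ⟨u₁, g₁, hu₁m, hg₁m, hu₁, hg₁, hO₁, hi₁, he₁, hc₁⟩ := H₁ r hr0 ⟨s * r₂, by rw [hr]; ring⟩
  obtain ⟨u₂, g₂, hu₂m, hg₂m, hu₂, hg₂, hO₂, hi₂, he₂, hc₂⟩ := H₂ r hr0 ⟨s * r₁, by rw [hr]; ring⟩
  have hI : μ.real A ^ 3 ≤ ∫ x, f x * u₁ x * u₂ x ∂μ := by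
    refine h3 α (MeasurableSpace.invariants ⇑(T₁ ^ r)) (MeasurableSpace.invariants ⇑(T₂ ^ r)) _ μ A u₁ u₂
      ?_ ?_ hA hu₁ hu₂ hc₁ hc₂
    · exact MeasurableSpace.invariants_le _
    · exact MeasurableSpace.invariants_le _
  set I : ℝ := ∫ x, f x * u₁ x * u₂ x ∂μ with hIdef
  obtain ⟨d₁, hd₁⟩ := poly_dvd p₁ hp₁ r
  obtain ⟨d₂, hd₂⟩ := poly_dvd p₂ hp₂ r
  have hmk₁ : ∀ (F : α → ℝ), Measurable F → ∀ j : ℤ, Measurable fun x => F ((T₁ ^ j) x) :=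
    fun F hF j => hF.comp (mpz hT₁ j).measurable
  have hmk₂ : ∀ (F : α → ℝ), Measurable F → ∀ j : ℤ, Measurable fun x => F ((T₂ ^ j) x) :=
    fun F hF j => hF.comp (mpz hT₂ j).measurable
  -- the three integrals
  let J : ℤ → ℤ → ℝ := fun a b => ∫ x, f x * f ((T₁ ^ a) x) * f ((T₂ ^ b) x) ∂μ
  let Φ : ℤ → ℤ → ℝ := fun a b => ∫ x, f x * f ((T₂ ^ b) x) * g₁ ((T₁ ^ a) x) ∂μ
  let Θ : ℤ → ℝ := fun b => ∫ x, f x * u₁ x * g₂ ((T₂ ^ b) x) ∂μ
  have key : ∀ a b : ℤ, I - ε / 6 - ε / 6 + Φ (r * a) (r * b) + Θ (r * b) ≤ J (r * a) (r * b) := by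
    intro a b
    have e1 : ∀ x, u₁ ((T₁ ^ ((r : ℤ) * a)) x) = u₁ x := inv_z hi₁ a
    have e2 : ∀ x, u₂ ((T₂ ^ ((r : ℤ) * b)) x) = u₂ x := inv_z hi₂ b
    have m1 : ∀ x, |u₁ x| ≤ 1 := fun x => abs_le.2 ⟨by linarith [(hu₁ x).1], (hu₁ x).2⟩
    have m2 : ∀ x, |u₂ x| ≤ 1 := fun x => abs_le.2 ⟨by linarith [(hu₂ x).1], (hu₂ x).2⟩
    have iJ : Integrable (fun x => f x * f ((T₁ ^ ((r : ℤ) * a)) x) * f ((T₂ ^ ((r : ℤ) * b)) x)) μ :=
      intg μ ((hfm.mul (hmk₁ f hfm _)).mul (hmk₂ f hfm _)) 1 (fun x => by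
        rw [abs_mul, abs_mul]
        have := mul_le_mul (mul_le_mul (hf1 x) (hf1 ((T₁ ^ ((r : ℤ) * a)) x)) (abs_nonneg _) zero_le_one)
          (hf1 ((T₂ ^ ((r : ℤ) * b)) x)) (abs_nonneg _) (by norm_num)
        linarith)
    have iI : Integrable (fun x => f x * u₁ x * u₂ x) μ :=
      intg μ ((hfm.mul hu₁m).mul hu₂m) 1 (fun x => by
        rw [abs_mul, abs_mul]
        have := mul_le_mul (mul_le_mul (hf1 x) (m1 x) (abs_nonneg _) zero_le_one)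
          (m2 x) (abs_nonneg _) (by norm_num)
        linarith)
    have iΦ : Integrable (fun x => f x * f ((T₂ ^ ((r : ℤ) * b)) x) * g₁ ((T₁ ^ ((r : ℤ) * a)) x)) μ :=
      intg μ ((hfm.mul (hmk₂ f hfm _)).mul (hmk₁ g₁ hg₁m _)) 2 (fun x => by
        rw [abs_mul, abs_mul]
        have := mul_le_mul (mul_le_mul (hf1 x) (hf1 ((T₂ ^ ((r : ℤ) * b)) x)) (abs_nonneg _) zero_le_one)
          (hg₁ ((T₁ ^ ((r : ℤ) * a)) x)) (abs_nonneg _) (by norm_num)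
        linarith)
    have iΘ : Integrable (fun x => f x * u₁ x * g₂ ((T₂ ^ ((r : ℤ) * b)) x)) μ :=
      intg μ ((hfm.mul hu₁m).mul (hmk₂ g₂ hg₂m _)) 2 (fun x => by
        rw [abs_mul, abs_mul]
        have := mul_le_mul (mul_le_mul (hf1 x) (m1 x) (abs_nonneg _) zero_le_one)
          (hg₂ ((T₂ ^ ((r : ℤ) * b)) x)) (abs_nonneg _) (by norm_num)
        linarith)
    have me1 : Measurable fun x => |f x - u₁ x - g₁ x| := ((hfm.sub hu₁m).sub hg₁m).abs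
    have me2 : Measurable fun x => |f x - u₂ x - g₂ x| := ((hfm.sub hu₂m).sub hg₂m).abs
    have ie1 : Integrable (fun x => |f ((T₁ ^ ((r : ℤ) * a)) x) - u₁ ((T₁ ^ ((r : ℤ) * a)) x)
        - g₁ ((T₁ ^ ((r : ℤ) * a)) x)|) μ :=
      intg μ (me1.comp (mpz hT₁ _).measurable) 4 (fun x => by
        rw [abs_abs]
        set y := (T₁ ^ ((r : ℤ) * a)) x
        have := abs_le.1 (hf1 y)
        have := abs_le.1 (m1 y)
        have := abs_le.1 (hg₁ y)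
        refine abs_le.2 ⟨by linarith, by linarith⟩)
    have ie2 : Integrable (fun x => |f ((T₂ ^ ((r : ℤ) * b)) x) - u₂ ((T₂ ^ ((r : ℤ) * b)) x)
        - g₂ ((T₂ ^ ((r : ℤ) * b)) x)|) μ :=
      intg μ (me2.comp (mpz hT₂ _).measurable) 4 (fun x => by
        rw [abs_abs]
        set y := (T₂ ^ ((r : ℤ) * b)) x
        have := abs_le.1 (hf1 y)
        have := abs_le.1 (m2 y)
        have := abs_le.1 (hg₂ y)
        refine abs_le.2 ⟨by linarith, by linarith⟩)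
    have ce1 : ∫ x, |f ((T₁ ^ ((r : ℤ) * a)) x) - u₁ ((T₁ ^ ((r : ℤ) * a)) x)
        - g₁ ((T₁ ^ ((r : ℤ) * a)) x)| ∂μ ≤ ε / 6 := by
      have hh := mpz hT₁ ((r : ℤ) * a)
      rw [← integral_map (f := fun x => |f x - u₁ x - g₁ x|) hh.measurable.aemeasurable
          (by rw [hh.map_eq]; exact me1.aestronglyMeasurable), hh.map_eq]
      exact he₁
    have ce2 : ∫ x, |f ((T₂ ^ ((r : ℤ) * b)) x) - u₂ ((T₂ ^ ((r : ℤ) * b)) x)
        - g₂ ((T₂ ^ ((r : ℤ) * b)) x)| ∂μ ≤ ε / 6 := by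
      have hh := mpz hT₂ ((r : ℤ) * b)
      rw [← integral_map (f := fun x => |f x - u₂ x - g₂ x|) hh.measurable.aemeasurable
          (by rw [hh.map_eq]; exact me2.aestronglyMeasurable), hh.map_eq]
      exact he₂
    have hpt : ∀ x, f x * u₁ x * u₂ x + f x * f ((T₂ ^ ((r : ℤ) * b)) x) * g₁ ((T₁ ^ ((r : ℤ) * a)) x)
        + f x * u₁ x * g₂ ((T₂ ^ ((r : ℤ) * b)) x)
        ≤ f x * f ((T₁ ^ ((r : ℤ) * a)) x) * f ((T₂ ^ ((r : ℤ) * b)) x)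
          + |f ((T₁ ^ ((r : ℤ) * a)) x) - u₁ ((T₁ ^ ((r : ℤ) * a)) x)
        - g₁ ((T₁ ^ ((r : ℤ) * a)) x)| + |f ((T₂ ^ ((r : ℤ) * b)) x) - u₂ ((T₂ ^ ((r : ℤ) * b)) x)
        - g₂ ((T₂ ^ ((r : ℤ) * b)) x)| := by
      intro x
      rw [e1 x, e2 x]
      set y := (T₁ ^ ((r : ℤ) * a)) x
      set z := (T₂ ^ ((r : ℤ) * b)) x
      have q1 : -|f y - u₁ x - g₁ y| ≤ (f x * f z) * (f y - u₁ x - g₁ y) := by
        have : |(f x * f z) * (f y - u₁ x - g₁ y)| ≤ |f y - u₁ x - g₁ y| := by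
          rw [abs_mul, abs_mul]
          have h5 : |f x| * |f z| ≤ 1 := by
            have := mul_le_mul (hf1 x) (hf1 z) (abs_nonneg _) zero_le_one
            linarith
          calc |f x| * |f z| * |f y - u₁ x - g₁ y| ≤ 1 * |f y - u₁ x - g₁ y| :=
                mul_le_mul_of_nonneg_right h5 (abs_nonneg _)
            _ = _ := one_mul _
        linarith [(abs_le.1 this).1]
      have q2 : -|f z - u₂ x - g₂ z| ≤ (f x * u₁ x) * (f z - u₂ x - g₂ z) := by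
        have : |(f x * u₁ x) * (f z - u₂ x - g₂ z)| ≤ |f z - u₂ x - g₂ z| := by
          rw [abs_mul, abs_mul]
          have h5 : |f x| * |u₁ x| ≤ 1 := by
            have := mul_le_mul (hf1 x) (m1 x) (abs_nonneg _) zero_le_one
            linarith
          calc |f x| * |u₁ x| * |f z - u₂ x - g₂ z| ≤ 1 * |f z - u₂ x - g₂ z| :=
                mul_le_mul_of_nonneg_right h5 (abs_nonneg _)
            _ = _ := one_mul _
        linarith [(abs_le.1 this).1]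
      nlinarith [q1, q2]
    have hint : ∫ x, (f x * u₁ x * u₂ x + f x * f ((T₂ ^ ((r : ℤ) * b)) x) * g₁ ((T₁ ^ ((r : ℤ) * a)) x)
        + f x * u₁ x * g₂ ((T₂ ^ ((r : ℤ) * b)) x)) ∂μ
        ≤ ∫ x, (f x * f ((T₁ ^ ((r : ℤ) * a)) x) * f ((T₂ ^ ((r : ℤ) * b)) x)
          + |f ((T₁ ^ ((r : ℤ) * a)) x) - u₁ ((T₁ ^ ((r : ℤ) * a)) x)
        - g₁ ((T₁ ^ ((r : ℤ) * a)) x)| + |f ((T₂ ^ ((r : ℤ) * b)) x) - u₂ ((T₂ ^ ((r : ℤ) * b)) x)
        - g₂ ((T₂ ^ ((r : ℤ) * b)) x)|) ∂μ :=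
      integral_mono ((iI.add iΦ).add iΘ) ((iJ.add ie1).add ie2) hpt
    have iIΦ : Integrable (fun x => f x * u₁ x * u₂ x +
        f x * f ((T₂ ^ ((r : ℤ) * b)) x) * g₁ ((T₁ ^ ((r : ℤ) * a)) x)) μ := iI.add iΦ
    have iJe : Integrable (fun x => f x * f ((T₁ ^ ((r : ℤ) * a)) x) * f ((T₂ ^ ((r : ℤ) * b)) x)
          + |f ((T₁ ^ ((r : ℤ) * a)) x) - u₁ ((T₁ ^ ((r : ℤ) * a)) x)
        - g₁ ((T₁ ^ ((r : ℤ) * a)) x)|) μ := iJ.add ie1
    rw [integral_add iIΦ iΘ, integral_add iI iΦ, integral_add iJe ie2,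
      integral_add iJ ie1] at hint
    have hJ : J (r * a) (r * b) = ∫ x, f x * f ((T₁ ^ ((r : ℤ) * a)) x) * f ((T₂ ^ ((r : ℤ) * b)) x) ∂μ := rfl
    have hΦ : Φ (r * a) (r * b) = ∫ x, f x * f ((T₂ ^ ((r : ℤ) * b)) x) * g₁ ((T₁ ^ ((r : ℤ) * a)) x) ∂μ := rfl
    have hΘ : Θ (r * b) = ∫ x, f x * u₁ x * g₂ ((T₂ ^ ((r : ℤ) * b)) x) ∂μ := rfl
    rw [hJ, hΦ, hΘ]
    linarith
  have hΦb : ∀ a b, |Φ a b| ≤ 2 := by
    intro a b
    have hb : ∀ x, ‖f x * f ((T₂ ^ b) x) * g₁ ((T₁ ^ a) x)‖ ≤ 2 := by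
      intro x
      rw [Real.norm_eq_abs, abs_mul, abs_mul]
      have := mul_le_mul (mul_le_mul (hf1 x) (hf1 ((T₂ ^ b) x)) (abs_nonneg _) zero_le_one)
          (hg₁ ((T₁ ^ a) x)) (abs_nonneg _) (by norm_num)
      linarith
    have h6 := norm_integral_le_of_norm_le_const (μ := μ) (Filter.Eventually.of_forall hb)
    rw [Real.norm_eq_abs] at h6
    simpa using h6
  -- choice of N
  have hQ : 0 < ((p₁ - p₂).comp (Polynomial.C (r : ℤ) * (Polynomial.X + 1))).natDegree := by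
    rw [Polynomial.natDegree_comp]
    have h7 : (Polynomial.C (r : ℤ) * (Polynomial.X + 1) : Polynomial ℤ).natDegree = 1 := by
      rw [Polynomial.natDegree_C_mul (by exact_mod_cast hr0.ne')]
      exact Polynomial.natDegree_X_add_C 1
    rw [h7, mul_one]
    rw [Nat.pos_iff_ne_zero]
    intro h8
    apply hne
    rw [← sub_eq_zero]
    rw [Polynomial.natDegree_eq_zero] at h8
    obtain ⟨c, hc⟩ := h8
    have h9 : (p₁ - p₂).coeff 0 = 0 := by rw [Polynomial.coeff_sub, hp₁, hp₂, sub_zero]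
    rw [← hc, Polynomial.coeff_C_zero] at h9
    rw [← hc, h9, Polynomial.C_0]
  have hM := h1 α μ T₁ g₁ hT₁ hg₁m ⟨2, hg₁⟩ hO₁ _ hQ
  obtain ⟨N, hN1, hN2⟩ := ((Filter.eventually_ge_atTop 1).and (hM.eventually_lt_const
    (show (0 : ℝ) < ε / 6 by positivity))).exists
  have hNpos : (0 : ℝ) < N := by exact_mod_cast hN1
  -- choice of M
  have hQ2 : 0 < (Polynomial.C (r : ℤ) * (Polynomial.X + 1) : Polynomial ℤ).natDegree := by
    have h7 : (Polynomial.C (r : ℤ) * (Polynomial.X + 1) : Polynomial ℤ).natDegree = 1 := by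
      rw [Polynomial.natDegree_C_mul (by exact_mod_cast hr0.ne')]
      exact Polynomial.natDegree_X_add_C 1
    rw [h7]; norm_num
  have hM2 := h1 α μ T₂ g₂ hT₂ hg₂m ⟨2, hg₂⟩ hO₂ _ hQ2
  set D : ℝ := ∑ n ∈ range N, 2 * 2 * |((d₂ n : ℤ) : ℝ)| with hD
  have hD0 : 0 ≤ D := Finset.sum_nonneg fun n _ => by positivity
  have hM3 : ∀ᶠ M : ℕ in atTop, D ≤ ε / 6 * N * M := by
    have : Tendsto (fun M : ℕ => ε / 6 * N * (M : ℝ)) atTop atTop :=
      Filter.Tendsto.const_mul_atTop (by positivity) tendsto_natCast_atTop_atTop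
    exact this.eventually_ge_atTop D
  obtain ⟨M, hM1, hM2', hM3'⟩ := ((Filter.eventually_ge_atTop 1).and ((hM2.eventually_lt_const
    (show (0 : ℝ) < ε / 6 by positivity)).and hM3)).exists
  have hMpos : (0 : ℝ) < M := by exact_mod_cast hM1
  by_contra hcon
  push Not at hcon
  -- all the J are small
  have hJs : ∀ m n : ℕ, J (r * ((m : ℤ) + 1 + d₁ n)) (r * ((m : ℤ) + 1 + d₂ n)) ≤ μ.real A ^ 3 - ε := by
    intro m n
    have h5 := hcon (r * (m + 1)) (r * (n + 1)) (by positivity) (by positivity)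
      ⟨r₁ * r₂ * (m + 1), by rw [hr]; ring⟩ ⟨r₁ * r₂ * (n + 1), by rw [hr]; ring⟩
    have k1 : (((r * (m + 1) : ℕ) : ℤ) + p₁.eval ((r * (n + 1) : ℕ) : ℤ)) = r * ((m : ℤ) + 1 + d₁ n) := by
      have := hd₁ n
      push_cast
      rw [this]; ring
    have k2 : (((r * (m + 1) : ℕ) : ℤ) + p₂.eval ((r * (n + 1) : ℕ) : ℤ)) = r * ((m : ℤ) + 1 + d₂ n) := by
      have := hd₂ n
      push_cast
      rw [this]; ring
    rw [k1, k2] at h5
    refine le_trans (le_of_eq ?_) h5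
    have hms : MeasurableSet (A ∩ (⇑(T₁ ^ ((r : ℤ) * ((m : ℤ) + 1 + d₁ n))) ⁻¹' A ∩
      ⇑(T₂ ^ ((r : ℤ) * ((m : ℤ) + 1 + d₂ n))) ⁻¹' A)) :=
      hA.inter (((mpz hT₁ _).measurable hA).inter ((mpz hT₂ _).measurable hA))
    have h6 := integral_indicator_one (μ := μ) hms
    rw [← h6]
    refine integral_congr_ae (Filter.Eventually.of_forall fun x => ?_)
    simp only [hf, Set.indicator_apply, Set.mem_inter_iff, Set.mem_preimage, Pi.one_apply]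
    by_cases c1 : x ∈ A <;> by_cases c2 : (T₁ ^ ((r : ℤ) * ((m : ℤ) + 1 + d₁ n))) x ∈ A <;>
      by_cases c3 : (T₂ ^ ((r : ℤ) * ((m : ℤ) + 1 + d₂ n))) x ∈ A <;> simp [c1, c2, c3]
  -- the sum of the Θ
  have hΘs : ∀ n : ℕ, |∑ m ∈ range M, Θ (r * ((m : ℤ) + 1 + d₂ n))| ≤ M * (ε / 6) := by
    intro n
    have hw1 : ∀ x, |f x * u₁ x| ≤ 1 := by
      intro x
      rw [abs_mul]
      have := mul_le_mul (hf1 x) (show |u₁ x| ≤ 1 from abs_le.2 ⟨by linarith [(hu₁ x).1], (hu₁ x).2⟩)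
        (abs_nonneg _) zero_le_one
      linarith
    have h5 := wbd μ T₂ hT₂ g₂ (fun x => f x * u₁ x) 2 hg₂m hg₂ (hfm.mul hu₁m) hw1 M hM1
      (fun m => (Polynomial.C (r : ℤ) * (Polynomial.X + 1) : Polynomial ℤ).eval (m : ℤ)) (r * d₂ n)
    have h6 : ∑ m ∈ range M, Θ (r * ((m : ℤ) + 1 + d₂ n)) =
        ∑ m ∈ range M, ∫ x, (f x * u₁ x) * g₂ ((T₂ ^ ((r : ℤ) * d₂ n +
          (Polynomial.C (r : ℤ) * (Polynomial.X + 1) : Polynomial ℤ).eval (m : ℤ))) x) ∂μ := by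
      refine Finset.sum_congr rfl fun m _ => ?_
      have : (r : ℤ) * d₂ n + (Polynomial.C (r : ℤ) * (Polynomial.X + 1) : Polynomial ℤ).eval (m : ℤ)
          = r * ((m : ℤ) + 1 + d₂ n) := by simp; ring
      rw [this]
    rw [h6]
    exact h5.trans (mul_le_mul_of_nonneg_left hM2'.le hMpos.le)
  -- the sum of the Φ
  let Ψ : ℕ → ℤ → ℝ := fun n j => Φ (r * (j + 1) + r * (d₁ n - d₂ n)) (r * (j + 1))
  have hΦs : ∀ n : ℕ, |∑ m ∈ range M, Φ (r * ((m : ℤ) + 1 + d₁ n)) (r * ((m : ℤ) + 1 + d₂ n))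
      - ∑ m ∈ range M, Ψ n m| ≤ 2 * 2 * |((d₂ n : ℤ) : ℝ)| := by
    intro n
    have h5 := shift (Ψ n) 2 (fun j => hΦb _ _) M (d₂ n)
    have h6 : ∑ m ∈ range M, Φ (r * ((m : ℤ) + 1 + d₁ n)) (r * ((m : ℤ) + 1 + d₂ n))
        = ∑ m ∈ range M, Ψ n ((m : ℤ) + d₂ n) := by
      refine Finset.sum_congr rfl fun m _ => ?_
      show _ = Φ (r * ((m : ℤ) + d₂ n + 1) + r * (d₁ n - d₂ n)) (r * ((m : ℤ) + d₂ n + 1))
      congr 1 <;> ring
    rw [h6]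
    exact h5
  have hΨs : ∀ m : ℕ, |∑ n ∈ range N, Ψ n m| ≤ N * (ε / 6) := by
    intro m
    have hw1 : ∀ x, |f x * f ((T₂ ^ ((r : ℤ) * ((m : ℤ) + 1))) x)| ≤ 1 := by
      intro x
      rw [abs_mul]
      have := mul_le_mul (hf1 x) (hf1 ((T₂ ^ ((r : ℤ) * ((m : ℤ) + 1))) x)) (abs_nonneg _) zero_le_one
      linarith
    have h5 := wbd μ T₁ hT₁ g₁ (fun x => f x * f ((T₂ ^ ((r : ℤ) * ((m : ℤ) + 1))) x)) 2 hg₁m hg₁
      (hfm.mul (hmk₂ f hfm _)) hw1 N hN1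
      (fun n => ((p₁ - p₂).comp (Polynomial.C (r : ℤ) * (Polynomial.X + 1))).eval (n : ℤ))
      (r * ((m : ℤ) + 1))
    have h6 : ∑ n ∈ range N, Ψ n m = ∑ n ∈ range N, ∫ x, (f x * f ((T₂ ^ ((r : ℤ) * ((m : ℤ) + 1))) x)) *
        g₁ ((T₁ ^ ((r : ℤ) * ((m : ℤ) + 1) +
          ((p₁ - p₂).comp (Polynomial.C (r : ℤ) * (Polynomial.X + 1))).eval (n : ℤ))) x) ∂μ := by
      refine Finset.sum_congr rfl fun n _ => ?_
      have : ((p₁ - p₂).comp (Polynomial.C (r : ℤ) * (Polynomial.X + 1))).eval (n : ℤ)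
          = r * (d₁ n - d₂ n) := by
        rw [Polynomial.eval_comp]
        have h7 : (Polynomial.C (r : ℤ) * (Polynomial.X + 1) : Polynomial ℤ).eval (n : ℤ) =
          (r : ℤ) * ((n : ℤ) + 1) := by simp
        rw [h7, Polynomial.eval_sub, hd₁, hd₂]; ring
      rw [this]
    rw [h6]
    exact h5.trans (mul_le_mul_of_nonneg_left hN2.le hNpos.le)
  -- conclusion
  have hS1 : ∑ n ∈ range N, ∑ m ∈ range M, J (r * ((m : ℤ) + 1 + d₁ n)) (r * ((m : ℤ) + 1 + d₂ n))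
      ≤ N * (M * (μ.real A ^ 3 - ε)) := by
    calc _ ≤ ∑ n ∈ range N, ∑ m ∈ range M, (μ.real A ^ 3 - ε) :=
          Finset.sum_le_sum fun n _ => Finset.sum_le_sum fun m _ => hJs m n
      _ = _ := by simp only [Finset.sum_const, Finset.card_range, nsmul_eq_mul]
  have hS2 : ∑ n ∈ range N, ∑ m ∈ range M, (I - ε / 6 - ε / 6 +
      Φ (r * ((m : ℤ) + 1 + d₁ n)) (r * ((m : ℤ) + 1 + d₂ n)) + Θ (r * ((m : ℤ) + 1 + d₂ n)))
      ≤ ∑ n ∈ range N, ∑ m ∈ range M, J (r * ((m : ℤ) + 1 + d₁ n)) (r * ((m : ℤ) + 1 + d₂ n)) :=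
    Finset.sum_le_sum fun n _ => Finset.sum_le_sum fun m _ => key _ _
  have hS3 : ∑ n ∈ range N, ∑ m ∈ range M, (I - ε / 6 - ε / 6 +
      Φ (r * ((m : ℤ) + 1 + d₁ n)) (r * ((m : ℤ) + 1 + d₂ n)) + Θ (r * ((m : ℤ) + 1 + d₂ n)))
      = N * (M * (I - ε / 6 - ε / 6)) +
        ∑ n ∈ range N, ∑ m ∈ range M, Φ (r * ((m : ℤ) + 1 + d₁ n)) (r * ((m : ℤ) + 1 + d₂ n)) +
        ∑ n ∈ range N, ∑ m ∈ range M, Θ (r * ((m : ℤ) + 1 + d₂ n)) := by
    simp only [Finset.sum_add_distrib, Finset.sum_const, Finset.card_range, nsmul_eq_mul]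
  have hS4 : -(N * (M * (ε / 6))) ≤ ∑ n ∈ range N, ∑ m ∈ range M, Θ (r * ((m : ℤ) + 1 + d₂ n)) := by
    have h5 : |∑ n ∈ range N, ∑ m ∈ range M, Θ (r * ((m : ℤ) + 1 + d₂ n))| ≤ N * (M * (ε / 6)) := by
      calc _ ≤ ∑ n ∈ range N, |∑ m ∈ range M, Θ (r * ((m : ℤ) + 1 + d₂ n))| := Finset.abs_sum_le_sum_abs _ _
        _ ≤ ∑ n ∈ range N, (M * (ε / 6)) := Finset.sum_le_sum fun n _ => hΘs n
        _ = _ := by simp only [Finset.sum_const, Finset.card_range, nsmul_eq_mul]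
    exact (abs_le.1 h5).1
  have hS5 : -(N * (M * (ε / 6))) - D ≤
      ∑ n ∈ range N, ∑ m ∈ range M, Φ (r * ((m : ℤ) + 1 + d₁ n)) (r * ((m : ℤ) + 1 + d₂ n)) := by
    have h5 : |∑ n ∈ range N, ∑ m ∈ range M, Φ (r * ((m : ℤ) + 1 + d₁ n)) (r * ((m : ℤ) + 1 + d₂ n))
        - ∑ n ∈ range N, ∑ m ∈ range M, Ψ n m| ≤ D := by
      rw [← Finset.sum_sub_distrib]
      exact (Finset.abs_sum_le_sum_abs _ _).trans (Finset.sum_le_sum fun n _ => hΦs n)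
    have h6 : |∑ n ∈ range N, ∑ m ∈ range M, Ψ n m| ≤ M * (N * (ε / 6)) := by
      rw [Finset.sum_comm]
      calc _ ≤ ∑ m ∈ range M, |∑ n ∈ range N, Ψ n m| := Finset.abs_sum_le_sum_abs _ _
        _ ≤ ∑ m ∈ range M, (N * (ε / 6)) := Finset.sum_le_sum fun m _ => hΨs m
        _ = _ := by simp only [Finset.sum_const, Finset.card_range, nsmul_eq_mul]
    have h7 := (abs_le.1 h5).1
    have h8 := (abs_le.1 h6).1
    have h9 : (M : ℝ) * (N * (ε / 6)) = N * (M * (ε / 6)) := by ring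
    linarith
  have hNM : (0 : ℝ) < N * M := by positivity
  have hfin : (N : ℝ) * (M * (I - ε / 6 - ε / 6)) + (-(N * (M * (ε / 6))) - D) + -(N * (M * (ε / 6)))
      ≤ N * (M * (μ.real A ^ 3 - ε)) := by linarith
  have hD' : D ≤ (N * M) * (ε / 6) := by linarith [hM3']
  have hfin2 : (N * M : ℝ) * (I - ε / 6 - ε / 6 - ε / 6 - ε / 6 - ε / 6) ≤ (N * M) * (μ.real A ^ 3 - ε) := by
    nlinarith
  have hfin3 := le_of_mul_le_mul_left hfin2 hNM
  linarith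

end Pool.Agent.R497.NC
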